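import Mathlib

set_option autoImplicit false

/-! Gauss diagrams of virtual string links. -/

namespace Pool.Agent.H394Z.VSL

/-- A point of the `n` strands: the number of the strand and the position along it. -/
abbrev Pt (n : ℕ) : Type := Fin n × ℝ

/-- An arrow of a Gauss diagram, recording one classical crossing: the point of the overpassing
strand (`tail`), the point of the underpassing strand (`head`) and the sign of the crossing. -/
structure Arrow (n : ℕ) where
  tail : Pt n
  head : Pt n
  sign : ℤˣ

/-- The two endpoints of an arrow. -/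
def Arrow.ends {n : ℕ} (a : Arrow n) : Set (Pt n) := {a.tail, a.head}

/-- A Gauss diagram on `n` strands: finitely many arrows with pairwise distinct endpoints. -/
structure Gauss (n : ℕ) where
  arrows : Set (Arrow n)
  finite : arrows.Finite
  tail_ne_head : ∀ a ∈ arrows, a.tail ≠ a.head
  disjoint : ∀ a ∈ arrows, ∀ b ∈ arrows, a ≠ b → Disjoint a.ends b.ends

/-- The points `u`, `v` lie on the same strand and no endpoint of an arrow of `D` lies strictly
between them. -/
def Gauss.Adjacent {n : ℕ} (D : Gauss n) (u v : Pt n) : Prop :=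
  u.1 = v.1 ∧ ∀ a ∈ D.arrows, ∀ w ∈ a.ends, w.1 = u.1 → ¬ (min u.2 v.2 < w.2 ∧ w.2 < max u.2 v.2)

/-- Isotopy: `D'` is obtained from `D` by an increasing reparametrisation of each strand. -/
def Reparam {n : ℕ} (D D' : Gauss n) : Prop :=
  ∃ φ : Fin n → ℝ → ℝ, (∀ i, StrictMono (φ i)) ∧ D'.arrows =
    (fun a : Arrow n => (⟨(a.tail.1, φ a.tail.1 a.tail.2), (a.head.1, φ a.head.1 a.head.2),
      a.sign⟩ : Arrow n)) '' D.arrows

/-- Self-virtualization: delete an arrow with both endpoints on the same strand. The first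
Reidemeister move is the special case of adjacent endpoints. -/
def SelfVirt {n : ℕ} (D D' : Gauss n) : Prop :=
  ∃ a ∈ D.arrows, a.tail.1 = a.head.1 ∧ D'.arrows = D.arrows \ {a}

/-- The second Reidemeister move: delete two arrows with adjacent tails and adjacent heads. -/
def Reid2 {n : ℕ} (D D' : Gauss n) : Prop :=
  ∃ a ∈ D.arrows, ∃ b ∈ D.arrows, a ≠ b ∧ D.Adjacent a.tail b.tail ∧ D.Adjacent a.head b.head ∧
    D'.arrows = D.arrows \ {a, b}

/-- The third Reidemeister move: for arrows `x` (top to middle), `y` (top to bottom) and `z`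
(middle to bottom) whose endpoints are adjacent in pairs on the top, middle and bottom pieces of
strand, exchange the two endpoints on each of the three pieces. -/
def Reid3 {n : ℕ} (D D' : Gauss n) : Prop :=
  ∃ x ∈ D.arrows, ∃ y ∈ D.arrows, ∃ z ∈ D.arrows, x ≠ y ∧ x ≠ z ∧ y ≠ z ∧
    D.Adjacent x.tail y.tail ∧ D.Adjacent x.head z.tail ∧ D.Adjacent y.head z.head ∧
    D'.arrows = (D.arrows \ {x, y, z}) ∪
      {⟨y.tail, z.tail, x.sign⟩, ⟨x.tail, z.head, y.sign⟩, ⟨x.head, y.head, z.sign⟩}

/-- One move. -/
def Move {n : ℕ} (D D' : Gauss n) : Prop :=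
  Reparam D D' ∨ SelfVirt D D' ∨ Reid2 D D' ∨ Reid3 D D'

/-- The Gauss diagram of a monotone (virtual pure braid) diagram, with the strands parametrised
by the height: every arrow is horizontal. -/
def Gauss.Horizontal {n : ℕ} (D : Gauss n) : Prop :=
  ∀ a ∈ D.arrows, a.tail.2 = a.head.2

end Pool.Agent.H394Z.VSL
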