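import Pool.Agent.H394Z.VSL.Main

set_option autoImplicit false

namespace Pool.Agent.H394Z.VSL

open Classical

variable {n : ℕ}

lemma exists_ginv_one {p q r s : Fin n} (h : Dist p q r s) :
    ∃ D : Gauss n, ginv p q r s D = 1 := by
  obtain ⟨h1, h2, h3, h4, h5, h6⟩ := h
  have h1' := h1.symm
  have h2' := h2.symm
  have h3' := h3.symm
  have h4' := h4.symm
  have h5' := h5.symm
  have h6' := h6.symm
  set e : Arrow n := ⟨(p, 1), (q, 1), 1⟩ with he
  set f : Arrow n := ⟨(r, 1), (s, 1), 1⟩ with hf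
  set g : Arrow n := ⟨(p, 0), (r, 2), 1⟩ with hg
  set k : Arrow n := ⟨(p, 2), (r, 0), 1⟩ with hk
  have d1 : e ≠ f := by simp [he, hf, h2]
  have d2 : e ≠ g := by simp [he, hg]
  have d3 : e ≠ k := by simp [he, hk]
  have d4 : f ≠ g := by simp [hf, hg]
  have d5 : f ≠ k := by simp [hf, hk]
  have d6 : g ≠ k := by simp [hg, hk]
  refine ⟨⟨{e, f, g, k}, Set.toFinite _, ?_, ?_⟩, ?_⟩
  · intro a ha
    simp only [Set.mem_insert_iff, Set.mem_singleton_iff] at ha
    rcases ha with rfl | rfl | rfl | rfl <;> simp [he, hf, hg, hk, h1, h2, h6]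
  · intro a ha b hb hab
    simp only [Set.mem_insert_iff, Set.mem_singleton_iff] at ha hb
    rcases ha with rfl | rfl | rfl | rfl <;> rcases hb with rfl | rfl | rfl | rfl <;>
      first
        | exact absurd rfl hab
        | simp [Arrow.ends, he, hf, hg, hk, h1, h2, h3, h4, h5, h6, h1', h2', h3', h4', h5', h6']
  · unfold ginv
    have hS : (Set.toFinite ({e, f, g, k} : Set (Arrow n))).toFinset = {e, f, g, k} := by
      ext a
      simp
    have m1 : e ∉ ({f, g, k} : Finset (Arrow n)) := by simp [d1, d2, d3]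
    have m2 : f ∉ ({g, k} : Finset (Arrow n)) := by simp [d4, d5]
    have m3 : g ∉ ({k} : Finset (Arrow n)) := by simp [d6]
    show inv p q r s (Set.toFinite ({e, f, g, k} : Set (Arrow n))).toFinset = 1
    rw [hS]
    unfold inv term al
    simp only [Finset.sum_insert m1, Finset.sum_insert m2, Finset.sum_insert m3,
      Finset.sum_singleton]
    simp [ind, Ty, Cr, Bf, Af, Lt, he, hf, hg, hk, h1, h2, h3, h4, h5, h6, h1', h2', h3', h4',
      h5', h6']

theorem not_monotone (hn : 4 ≤ n) :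
    ∃ D : Gauss n, ∀ D' : Gauss n, Relation.EqvGen Move D D' → ¬ D'.Horizontal := by
  have h : Dist (⟨0, by omega⟩ : Fin n) ⟨1, by omega⟩ ⟨2, by omega⟩ ⟨3, by omega⟩ := by
    constructor <;> simp
  obtain ⟨D, hD⟩ := exists_ginv_one h
  refine ⟨D, fun D' h1 h2 => ?_⟩
  have h3 := ginv_eqv h h1
  rw [hD, ginv_horizontal _ _ _ _ h2] at h3
  exact zero_ne_one h3

end Pool.Agent.H394Z.VSL
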