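import Pool.Agent.H394Z.VSL.Defs

set_option autoImplicit false

/-! A mod two invariant of Gauss diagrams up to self-virtualization. -/

namespace Pool.Agent.H394Z.VSL

open Classical

variable {n : ℕ}

/-- Strict order of points on a common strand. -/
def Lt (u w : Pt n) : Prop := u.1 = w.1 ∧ u.2 < w.2

def Bf (u : Pt n) (e : Arrow n) : Prop := Lt u e.tail ∨ Lt u e.head

def Af (u : Pt n) (f : Arrow n) : Prop := Lt f.tail u ∨ Lt f.head u

def Cr (g e f : Arrow n) : Prop := (Bf g.tail e ∧ Af g.head f) ∨ (Bf g.head e ∧ Af g.tail f)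

def Ty (p q : Fin n) (e : Arrow n) : Prop :=
  (e.tail.1 = p ∧ e.head.1 = q) ∨ (e.tail.1 = q ∧ e.head.1 = p)

noncomputable def ind (P : Prop) : ZMod 2 := if P then 1 else 0

lemma ind_congr {P Q : Prop} (h : P ↔ Q) : ind P = ind Q := by rw [propext h]

lemma ind_false {P : Prop} (h : ¬ P) : ind P = 0 := if_neg h

lemma ind_true {P : Prop} (h : P) : ind P = 1 := if_pos h

noncomputable def al (S : Finset (Arrow n)) (e f : Arrow n) : ZMod 2 := ∑ g ∈ S, ind (Cr g e f)

noncomputable def term (p q r s : Fin n) (S : Finset (Arrow n)) (e f : Arrow n) : ZMod 2 :=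
  ind (Ty p q e ∧ Ty r s f) * (al S e f * al S f e)

noncomputable def inv (p q r s : Fin n) (S : Finset (Arrow n)) : ZMod 2 :=
  ∑ e ∈ S, ∑ f ∈ S, term p q r s S e f

/-- The strands of the two arrows are four different strands. -/
def Four (e f : Arrow n) : Prop :=
  e.tail.1 ≠ e.head.1 ∧ f.tail.1 ≠ f.head.1 ∧ e.tail.1 ≠ f.tail.1 ∧ e.tail.1 ≠ f.head.1 ∧
    e.head.1 ≠ f.tail.1 ∧ e.head.1 ≠ f.head.1

lemma Four.symm {e f : Arrow n} (h : Four e f) : Four f e := by
  unfold Four at *
  tauto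

structure Dist (p q r s : Fin n) : Prop where
  pq : p ≠ q
  pr : p ≠ r
  ps : p ≠ s
  qr : q ≠ r
  qs : q ≠ s
  rs : r ≠ s

lemma four_of_ty {p q r s : Fin n} (h : Dist p q r s) {e f : Arrow n}
    (hh : Ty p q e ∧ Ty r s f) : Four e f := by
  obtain ⟨h1, h2, h3, h4, h5, h6⟩ := h
  obtain ⟨he, hf⟩ := hh
  unfold Four
  rcases he with ⟨a, b⟩ | ⟨a, b⟩ <;> rcases hf with ⟨c, d⟩ | ⟨c, d⟩ <;> rw [a, b, c, d] <;> tauto

/-- Transport of the invariant along an injective map of arrows. -/
lemma inv_image {p q r s : Fin n} (h : Dist p q r s) (S : Finset (Arrow n))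
    (τ : Arrow n → Arrow n) (hτ : Set.InjOn τ S)
    (ht : ∀ e ∈ S, (τ e).tail.1 = e.tail.1 ∧ (τ e).head.1 = e.head.1)
    (ha : ∀ e ∈ S, ∀ f ∈ S, Four e f →
      ∑ g ∈ S, ind (Cr (τ g) (τ e) (τ f)) = ∑ g ∈ S, ind (Cr g e f)) :
    inv p q r s (S.image τ) = inv p q r s S := by
  unfold inv
  rw [Finset.sum_image hτ]
  refine Finset.sum_congr rfl fun e he => ?_
  rw [Finset.sum_image hτ]
  refine Finset.sum_congr rfl fun f hf => ?_
  unfold term al
  rw [Finset.sum_image hτ, Finset.sum_image hτ]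
  have h1 : (Ty p q (τ e) ∧ Ty r s (τ f)) ↔ (Ty p q e ∧ Ty r s f) := by
    unfold Ty
    rw [(ht e he).1, (ht e he).2, (ht f hf).1, (ht f hf).2]
  rw [ind_congr h1]
  by_cases h2 : Ty p q e ∧ Ty r s f
  · rw [ha e he f hf (four_of_ty h h2), ha f hf e he (four_of_ty h h2).symm]
  · rw [ind_false h2, zero_mul, zero_mul]

lemma two_eq (x : ZMod 2) : x + x = 0 := CharTwo.add_self_eq_zero x

/-- Adjacent points compare in the same way with any other endpoint. -/
lemma adj_lt {D : Gauss n} {u v w : Pt n} (h : D.Adjacent u v) {k : Arrow n} (hk : k ∈ D.arrows)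
    (hw : w ∈ k.ends) (hu : w ≠ u) (hv : w ≠ v) : (Lt w u ↔ Lt w v) ∧ (Lt u w ↔ Lt v w) := by
  obtain ⟨h1, h2⟩ := h
  have h3 := h2 k hk w hw
  obtain ⟨ui, ux⟩ := u
  obtain ⟨vi, vx⟩ := v
  obtain ⟨wi, wx⟩ := w
  simp only at h1 h3
  subst h1
  unfold Lt
  simp only
  by_cases hi : wi = ui
  · subst hi
    have h4 := h3 rfl
    have hu' : wx ≠ ux := fun h => hu (by rw [h])
    have hv' : wx ≠ vx := fun h => hv (by rw [h])
    simp only [true_and]
    rw [min_lt_iff, lt_max_iff] at h4
    rcases lt_or_gt_of_ne hu' with a | a <;> rcases lt_or_gt_of_ne hv' with b | b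
    · exact ⟨by simp [a, b], by simp [a.le, b.le, not_lt.2 a.le, not_lt.2 b.le]⟩
    · exact absurd ⟨Or.inr b, Or.inl a⟩ h4
    · exact absurd ⟨Or.inl a, Or.inr b⟩ h4
    · exact ⟨by simp [not_lt.2 a.le, not_lt.2 b.le], by simp [a, b]⟩
  · have hi' : ¬ ui = wi := fun h => hi h.symm
    simp [hi, hi']

lemma tail_mem (a : Arrow n) : a.tail ∈ a.ends := by simp [Arrow.ends]

lemma head_mem (a : Arrow n) : a.head ∈ a.ends := by simp [Arrow.ends]

lemma ne_of_ends {D : Gauss n} {a b : Arrow n} (ha : a ∈ D.arrows) (hb : b ∈ D.arrows)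
    (hab : a ≠ b) {u w : Pt n} (hu : u ∈ a.ends) (hw : w ∈ b.ends) : u ≠ w := by
  rintro rfl
  exact Set.disjoint_left.1 (D.disjoint a ha b hb hab) hu hw

/-- The invariant of a Gauss diagram. -/
noncomputable def ginv (p q r s : Fin n) (D : Gauss n) : ZMod 2 := inv p q r s D.finite.toFinset

lemma ginv_reparam {p q r s : Fin n} (h : Dist p q r s) {D D' : Gauss n} (hD : Reparam D D') :
    ginv p q r s D' = ginv p q r s D := by
  obtain ⟨φ, hφ, hD⟩ := hD
  set τ : Arrow n → Arrow n := fun a => (⟨(a.tail.1, φ a.tail.1 a.tail.2),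
    (a.head.1, φ a.head.1 a.head.2), a.sign⟩ : Arrow n) with hτ
  have h1 : D'.finite.toFinset = D.finite.toFinset.image τ := by
    ext a
    simp [hD]
  have hlt : ∀ u w : Pt n, Lt (u.1, φ u.1 u.2) (w.1, φ w.1 w.2) ↔ Lt u w := by
    rintro ⟨i, x⟩ ⟨j, y⟩
    unfold Lt
    simp only
    refine and_congr_right fun hij => ?_
    subst hij
    exact (hφ i).lt_iff_lt
  have hpt : ∀ u w : Pt n, ((u.1, φ u.1 u.2) : Pt n) = (w.1, φ w.1 w.2) → u = w := by
    rintro ⟨i, x⟩ ⟨j, y⟩ hh
    simp only [Prod.mk.injEq] at hh ⊢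
    obtain ⟨rfl, h2⟩ := hh
    exact ⟨rfl, (hφ i).injective h2⟩
  unfold ginv
  rw [h1]
  refine inv_image h _ τ ?_ (fun e _ => ⟨rfl, rfl⟩) ?_
  · rintro ⟨a1, a2, a3⟩ - ⟨b1, b2, b3⟩ - hab
    simp only [hτ, Arrow.mk.injEq] at hab ⊢
    exact ⟨hpt _ _ hab.1, hpt _ _ hab.2.1, hab.2.2⟩
  · intro e _ f _ _
    refine Finset.sum_congr rfl fun g _ => ind_congr ?_
    simp only [Cr, Bf, Af, hτ, hlt]

lemma not_cr_self {a e f : Arrow n} (ha : a.tail.1 = a.head.1) (h : Four e f) : ¬ Cr a e f := by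
  obtain ⟨h1, h2, h3, h4, h5, h6⟩ := h
  unfold Cr Bf Af Lt
  grind

lemma ginv_selfVirt {p q r s : Fin n} (h : Dist p q r s) {D D' : Gauss n} (hD : SelfVirt D D') :
    ginv p q r s D' = ginv p q r s D := by
  obtain ⟨a, ha, hs, hD⟩ := hD
  set S := D'.finite.toFinset
  have h1 : D.finite.toFinset = insert a S := by
    ext b
    simp only [Set.Finite.mem_toFinset, Finset.mem_insert, S, hD, Set.mem_diff,
      Set.mem_singleton_iff]
    by_cases hb : b = a
    · simp [hb, ha]
    · simp [hb]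
  have h2 : a ∉ S := by simp [S, hD]
  have h3 : ∀ e f, term p q r s (insert a S) e f = term p q r s S e f := by
    intro e f
    unfold term al
    by_cases h4 : Ty p q e ∧ Ty r s f
    · rw [Finset.sum_insert h2, Finset.sum_insert h2,
        ind_false (not_cr_self hs (four_of_ty h h4)),
        ind_false (not_cr_self hs (four_of_ty h h4).symm), zero_add, zero_add]
    · rw [ind_false h4, zero_mul, zero_mul]
  have h5 : ∀ f, term p q r s S a f = 0 := fun f => by
    unfold term
    rw [ind_false fun h4 => (four_of_ty h h4).1 hs, zero_mul]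
  have h6 : ∀ e, term p q r s S e a = 0 := fun e => by
    unfold term
    rw [ind_false fun h4 => (four_of_ty h h4).2.1 hs, zero_mul]
  unfold ginv inv
  rw [h1]
  simp only [h3, Finset.sum_insert h2, h5, h6, Finset.sum_const_zero, zero_add]
  rfl

lemma not_cr_left {g e f : Arrow n} (h1 : g.tail.1 = e.tail.1) (h2 : g.head.1 = e.head.1)
    (h : Four e f) : ¬ Cr g e f ∧ ¬ Cr g f e := by
  obtain ⟨h1, h2, h3, h4, h5, h6⟩ := h
  unfold Cr Bf Af Lt
  grind

lemma ginv_reid2 {p q r s : Fin n} (h : Dist p q r s) {D D' : Gauss n} (hD : Reid2 D D') :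
    ginv p q r s D' = ginv p q r s D := by
  obtain ⟨a, ha, b, hb, hab, ht, hh, hD⟩ := hD
  set S := D'.finite.toFinset
  have hS : ∀ k, k ∈ S ↔ k ∈ D.arrows ∧ k ≠ a ∧ k ≠ b := fun k => by simp [S, hD]
  have h1 : D.finite.toFinset = insert a (insert b S) := by
    ext k
    simp only [Set.Finite.mem_toFinset, Finset.mem_insert, hS]
    by_cases hk : k = a
    · simp [hk, ha]
    · by_cases hk' : k = b
      · simp [hk', hb]
      · simp [hk, hk']
  have h2 : a ∉ insert b S := by simp [hS, hab]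
  have h3 : b ∉ S := by simp [hS]
  have key : ∀ k ∈ S, ∀ w ∈ k.ends, ((Lt w a.tail ↔ Lt w b.tail) ∧ (Lt a.tail w ↔ Lt b.tail w)) ∧
      ((Lt w a.head ↔ Lt w b.head) ∧ (Lt a.head w ↔ Lt b.head w)) := by
    intro k hk w hw
    obtain ⟨hk1, hk2, hk3⟩ := (hS k).1 hk
    exact ⟨adj_lt ht hk1 hw (ne_of_ends hk1 ha hk2 hw (tail_mem a))
      (ne_of_ends hk1 hb hk3 hw (tail_mem b)), adj_lt hh hk1 hw
      (ne_of_ends hk1 ha hk2 hw (head_mem a)) (ne_of_ends hk1 hb hk3 hw (head_mem b))⟩
  have hal : ∀ e f, (e ∈ S ∨ e = a ∨ e = b) → (f ∈ S ∨ f = a ∨ f = b) → Four e f →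
      al (insert a (insert b S)) e f = al S e f := by
    intro e f he hf h4
    unfold al
    rw [Finset.sum_insert h2, Finset.sum_insert h3, ← add_assoc]
    have : ind (Cr a e f) = ind (Cr b e f) := by
      rcases he with he | he
      · rcases hf with hf | hf
        · refine ind_congr ?_
          have k1 := key e he _ (tail_mem e)
          have k2 := key e he _ (head_mem e)
          have k3 := key f hf _ (tail_mem f)
          have k4 := key f hf _ (head_mem f)
          simp only [Cr, Bf, Af, k1, k2, k3, k4]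
        · rcases hf with rfl | rfl
          · rw [ind_false (not_cr_left rfl rfl h4.symm).2,
              ind_false (not_cr_left ht.1.symm hh.1.symm h4.symm).2]
          · rw [ind_false (not_cr_left rfl rfl h4.symm).2,
              ind_false (not_cr_left ht.1 hh.1 h4.symm).2]
      · rcases he with rfl | rfl
        · rw [ind_false (not_cr_left rfl rfl h4).1,
            ind_false (not_cr_left ht.1.symm hh.1.symm h4).1]
        · rw [ind_false (not_cr_left rfl rfl h4).1, ind_false (not_cr_left ht.1 hh.1 h4).1]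
    rw [this, two_eq, zero_add]
  have hterm : ∀ e ∈ insert a (insert b S), ∀ f ∈ insert a (insert b S),
      term p q r s (insert a (insert b S)) e f = term p q r s S e f := by
    intro e he f hf
    simp only [Finset.mem_insert] at he hf
    unfold term
    by_cases h4 : Ty p q e ∧ Ty r s f
    · rw [hal e f (by tauto) (by tauto) (four_of_ty h h4),
        hal f e (by tauto) (by tauto) (four_of_ty h h4).symm]
    · rw [ind_false h4, zero_mul, zero_mul]
  have hty : ∀ i j, Ty i j a ↔ Ty i j b := fun i j => by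
    unfold Ty
    rw [ht.1, hh.1]
  have hsw : ∀ f ∈ S, al S a f = al S b f ∧ al S f a = al S f b := by
    intro f _
    unfold al
    constructor
    all_goals
      refine Finset.sum_congr rfl fun g hg => ind_congr ?_
      have k1 := key g hg _ (tail_mem g)
      have k2 := key g hg _ (head_mem g)
      simp only [Cr, Bf, Af, k1, k2]
  have hz : ∀ e f, (e = a ∨ e = b) → (f = a ∨ f = b) → term p q r s S e f = 0 := by
    intro e f he hf
    unfold term
    rw [ind_false, zero_mul]
    intro h4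
    have h5 := (four_of_ty h h4).2.2.1
    rcases he with rfl | rfl <;> rcases hf with rfl | rfl
    · exact h5 rfl
    · exact h5 ht.1
    · exact h5 ht.1.symm
    · exact h5 rfl
  have hl : ∀ f ∈ S, term p q r s S a f = term p q r s S b f := fun f hf => by
    unfold term
    rw [(hsw f hf).1, (hsw f hf).2, hty]
  have hr : ∀ f ∈ S, term p q r s S f a = term p q r s S f b := fun f hf => by
    unfold term
    rw [(hsw f hf).1, (hsw f hf).2, hty]
  unfold ginv inv
  rw [h1, Finset.sum_congr rfl fun e he => Finset.sum_congr rfl fun f hf => hterm e he f hf]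
  simp only [Finset.sum_insert h2, Finset.sum_insert h3]
  rw [hz a a (by simp) (by simp), hz a b (by simp) (by simp), hz b a (by simp) (by simp),
    hz b b (by simp) (by simp), Finset.sum_congr rfl hl]
  simp only [zero_add]
  rw [← add_assoc, two_eq, zero_add]
  refine Finset.sum_congr rfl fun e he => ?_
  rw [hr e he, ← add_assoc, two_eq, zero_add]

end Pool.Agent.H394Z.VSL
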