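import Pool.Agent.H394Z.VSL.Inv

set_option autoImplicit false

namespace Pool.Agent.H394Z.VSL

open Classical

variable {n : ℕ}

lemma ind_or_flip {c P Q : Prop} (h : P ↔ ¬ Q) : ind (c ∧ P) = ind (c ∧ Q) + ind c := by
  by_cases hc : c <;> by_cases hq : Q <;> simp [ind, hc, hq, h]
  decide

lemma cr_iff {g e f : Arrow n} (h : Four e f) {u v w : Pt n}
    (hg : (g.tail = u ∧ g.head = v) ∨ (g.head = u ∧ g.tail = v)) (hw : w = e.tail ∨ w = e.head)
    (hu : u.1 = w.1) : Cr g e f ↔ Af v f ∧ u.2 < w.2 := by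
  obtain ⟨h1, h2, h3, h4, h5, h6⟩ := h
  rcases hg with ⟨rfl, rfl⟩ | ⟨rfl, rfl⟩ <;> rcases hw with rfl | rfl <;>
    simp only [Cr, Bf, Af, Lt] <;> grind

lemma cr_iff' {g e f : Arrow n} (h : Four e f) {u v w : Pt n}
    (hg : (g.tail = u ∧ g.head = v) ∨ (g.head = u ∧ g.tail = v)) (hw : w = f.tail ∨ w = f.head)
    (hu : u.1 = w.1) : Cr g e f ↔ Bf v e ∧ w.2 < u.2 := by
  obtain ⟨h1, h2, h3, h4, h5, h6⟩ := h
  rcases hg with ⟨rfl, rfl⟩ | ⟨rfl, rfl⟩ <;> rcases hw with rfl | rfl <;>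
    simp only [Cr, Bf, Af, Lt] <;> grind

lemma ginv_reid3 {p q r s : Fin n} (h : Dist p q r s) {D D' : Gauss n} (hD : Reid3 D D') :
    ginv p q r s D' = ginv p q r s D := by
  obtain ⟨x, hx, y, hy, z, hz, hxy, hxz, hyz, hT, hM, hB, hD⟩ := hD
  set x' : Arrow n := ⟨y.tail, z.tail, x.sign⟩ with hx'
  set y' : Arrow n := ⟨x.tail, z.head, y.sign⟩ with hy'
  set z' : Arrow n := ⟨x.head, y.head, z.sign⟩ with hz'
  set τ : Arrow n → Arrow n := fun a => if a = x then x' else if a = y then y' else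
    if a = z then z' else a with hτ
  have τx : τ x = x' := by simp [hτ]
  have τy : τ y = y' := by simp [hτ, hxy.symm]
  have τz : τ z = z' := by simp [hτ, hxz.symm, hyz.symm]
  have τo : ∀ a, a ≠ x → a ≠ y → a ≠ z → τ a = a := fun a h1 h2 h3 => by simp [hτ, h1, h2, h3]
  set S := D.finite.toFinset with hSdef
  have hS : ∀ a, a ∈ S ↔ a ∈ D.arrows := fun a => by simp [hSdef]
  have h1 : D'.finite.toFinset = S.image τ := by
    ext a
    simp only [Set.Finite.mem_toFinset, hD, Finset.mem_image, hS, Set.mem_union, Set.mem_sdiff,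
      Set.mem_insert_iff, Set.mem_singleton_iff, not_or]
    constructor
    · rintro (⟨h1, h2, h3, h4⟩ | rfl | rfl | rfl)
      · exact ⟨a, h1, τo a h2 h3 h4⟩
      · exact ⟨x, hx, τx⟩
      · exact ⟨y, hy, τy⟩
      · exact ⟨z, hz, τz⟩
    · rintro ⟨b, hb, rfl⟩
      by_cases b1 : b = x
      · rw [b1, τx]; simp
      by_cases b2 : b = y
      · rw [b2, τy]; simp
      by_cases b3 : b = z
      · rw [b3, τz]; simp
      rw [τo b b1 b2 b3]
      exact Or.inl ⟨hb, b1, b2, b3⟩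
  have nT : x.tail ≠ y.tail := ne_of_ends hx hy hxy (tail_mem x) (tail_mem y)
  have nM : x.head ≠ z.tail := ne_of_ends hx hz hxz (head_mem x) (tail_mem z)
  have nB : y.head ≠ z.head := ne_of_ends hy hz hyz (head_mem y) (head_mem z)
  have n1 : x.tail ≠ x.head := D.tail_ne_head x hx
  have n2 : x.head ≠ y.tail := ne_of_ends hx hy hxy (head_mem x) (tail_mem y)
  have key : ∀ k ∈ D.arrows, k ≠ x → k ≠ y → k ≠ z → ∀ w ∈ k.ends,
      ((Lt w x.tail ↔ Lt w y.tail) ∧ (Lt x.tail w ↔ Lt y.tail w)) ∧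
      ((Lt w x.head ↔ Lt w z.tail) ∧ (Lt x.head w ↔ Lt z.tail w)) ∧
      ((Lt w y.head ↔ Lt w z.head) ∧ (Lt y.head w ↔ Lt z.head w)) := by
    intro k hk k1 k2 k3 w hw
    exact ⟨adj_lt hT hk hw (ne_of_ends hk hx k1 hw (tail_mem x))
      (ne_of_ends hk hy k2 hw (tail_mem y)), adj_lt hM hk hw
      (ne_of_ends hk hx k1 hw (head_mem x)) (ne_of_ends hk hz k3 hw (tail_mem z)),
      adj_lt hB hk hw
      (ne_of_ends hk hy k2 hw (head_mem y)) (ne_of_ends hk hz k3 hw (head_mem z))⟩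
  have cases4 : ∀ a ∈ S, a = x ∨ a = y ∨ a = z ∨ (a ∈ D.arrows ∧ a ≠ x ∧ a ≠ y ∧ a ≠ z) := by
    intro a ha
    have := (hS a).1 ha
    tauto
  have eT := hT.1
  have eM := hM.1
  have eB := hB.1
  have ltT : x.tail.2 < y.tail.2 ↔ ¬ y.tail.2 < x.tail.2 := by
    have : x.tail.2 ≠ y.tail.2 := fun h => nT (Prod.ext eT h)
    constructor
    · exact fun h => not_lt.2 h.le
    · exact fun h => lt_of_le_of_ne (not_lt.1 h) this
  have ltM : x.head.2 < z.tail.2 ↔ ¬ z.tail.2 < x.head.2 := by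
    have : x.head.2 ≠ z.tail.2 := fun h => nM (Prod.ext eM h)
    constructor
    · exact fun h => not_lt.2 h.le
    · exact fun h => lt_of_le_of_ne (not_lt.1 h) this
  have ltB : y.head.2 < z.head.2 ↔ ¬ z.head.2 < y.head.2 := by
    have : y.head.2 ≠ z.head.2 := fun h => nB (Prod.ext eB h)
    constructor
    · exact fun h => not_lt.2 h.le
    · exact fun h => lt_of_le_of_ne (not_lt.1 h) this
  unfold ginv
  rw [h1]
  refine inv_image h S τ ?_ ?_ ?_
  · intro a ha b hb hab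
    have hne : ∀ k ∈ D.arrows, k ≠ x → k ≠ y → k ≠ z → k ≠ x' ∧ k ≠ y' ∧ k ≠ z' := by
      intro k hk k1 k2 k3
      refine ⟨?_, ?_, ?_⟩
      · rintro rfl
        exact ne_of_ends hk hy k2 (tail_mem _) (tail_mem y) rfl
      · rintro rfl
        exact ne_of_ends hk hx k1 (tail_mem _) (tail_mem x) rfl
      · rintro rfl
        exact ne_of_ends hk hx k1 (tail_mem _) (head_mem x) rfl
    have d1 : x' ≠ y' := fun h => nT (congrArg Arrow.tail h).symm
    have d2 : x' ≠ z' := fun h => n2 (congrArg Arrow.tail h).symm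
    have d3 : y' ≠ z' := fun h => n1 (congrArg Arrow.tail h)
    rcases cases4 a ha with ha' | ha' | ha' | ⟨a0, a1, a2, a3⟩ <;>
      rcases cases4 b hb with hb' | hb' | hb' | ⟨b0, b1, b2, b3⟩
    · rw [ha', hb']
    · rw [ha', hb', τx, τy] at hab; exact absurd hab d1
    · rw [ha', hb', τx, τz] at hab; exact absurd hab d2
    · rw [ha', τx, τo b b1 b2 b3] at hab; exact absurd hab.symm (hne b b0 b1 b2 b3).1
    · rw [ha', hb', τx, τy] at hab; exact absurd hab.symm d1
    · rw [ha', hb']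
    · rw [ha', hb', τy, τz] at hab; exact absurd hab d3
    · rw [ha', τy, τo b b1 b2 b3] at hab; exact absurd hab.symm (hne b b0 b1 b2 b3).2.1
    · rw [ha', hb', τx, τz] at hab; exact absurd hab.symm d2
    · rw [ha', hb', τy, τz] at hab; exact absurd hab.symm d3
    · rw [ha', hb']
    · rw [ha', τz, τo b b1 b2 b3] at hab; exact absurd hab.symm (hne b b0 b1 b2 b3).2.2
    · rw [hb', τx, τo a a1 a2 a3] at hab; exact absurd hab (hne a a0 a1 a2 a3).1
    · rw [hb', τy, τo a a1 a2 a3] at hab; exact absurd hab (hne a a0 a1 a2 a3).2.1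
    · rw [hb', τz, τo a a1 a2 a3] at hab; exact absurd hab (hne a a0 a1 a2 a3).2.2
    · rwa [τo a a1 a2 a3, τo b b1 b2 b3] at hab
  · intro e he
    rcases cases4 e he with rfl | rfl | rfl | ⟨a0, a1, a2, a3⟩
    · rw [τx]; exact ⟨eT.symm, eM.symm⟩
    · rw [τy]; exact ⟨eT, eB.symm⟩
    · rw [τz]; exact ⟨eM, eB⟩
    · rw [τo e a1 a2 a3]; exact ⟨rfl, rfl⟩
  · intro e he f hf h4
    have hsplit : S = insert x (insert y (insert z (((S.erase x).erase y).erase z))) := by
      ext a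
      simp only [Finset.mem_insert, Finset.mem_erase, hS]
      constructor
      · intro ha
        tauto
      · rintro (rfl | rfl | rfl | ha)
        exacts [hx, hy, hz, ha.2.2.2]
    have m1 : x ∉ insert y (insert z (((S.erase x).erase y).erase z)) := by simp [hxy, hxz]
    have m2 : y ∉ insert z (((S.erase x).erase y).erase z) := by simp [hyz]
    have m3 : z ∉ ((S.erase x).erase y).erase z := by simp
    have hrest : ∀ g ∈ ((S.erase x).erase y).erase z,
        ind (Cr (τ g) (τ e) (τ f)) = ind (Cr g e f) := by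
      intro g hg
      simp only [Finset.mem_erase, hS] at hg
      obtain ⟨g3, g2, g1, g0⟩ := hg
      have k1 := key g g0 g1 g2 g3 _ (tail_mem g)
      have k2 := key g g0 g1 g2 g3 _ (head_mem g)
      have hB' : ∀ a ∈ S, (Bf g.tail (τ a) ↔ Bf g.tail a) ∧ (Bf g.head (τ a) ↔ Bf g.head a) ∧
          (Af g.tail (τ a) ↔ Af g.tail a) ∧ (Af g.head (τ a) ↔ Af g.head a) := by
        intro a ha
        rcases cases4 a ha with rfl | rfl | rfl | ⟨a0, a1, a2, a3⟩
        · rw [τx]; simp only [Bf, Af, hx', k1, k2, and_self]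
        · rw [τy]; simp only [Bf, Af, hy', k1, k2, and_self]
        · rw [τz]; simp only [Bf, Af, hz', k1, k2, and_self]
        · rw [τo a a1 a2 a3]; simp
      rw [τo g g1 g2 g3]
      refine ind_congr ?_
      simp only [Cr, hB' e he, hB' f hf]
    rw [hsplit, Finset.sum_insert m1, Finset.sum_insert m2, Finset.sum_insert m3,
      Finset.sum_insert m1, Finset.sum_insert m2, Finset.sum_insert m3,
      Finset.sum_congr rfl hrest, ← add_assoc, ← add_assoc, ← add_assoc, ← add_assoc, τx, τy, τz]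
    congr 1
    have fin : ∀ (c P1 Q1 P2 Q2 : Prop), (P1 ↔ ¬ Q1) → (P2 ↔ ¬ Q2) →
        ind (c ∧ P1) + ind (c ∧ P2) = ind (c ∧ Q1) + ind (c ∧ Q2) := by
      intro c P1 Q1 P2 Q2 i1 i2
      rw [ind_or_flip i1, ind_or_flip i2]
      have := two_eq (ind c)
      linear_combination this
    have ltT' : y.tail.2 < x.tail.2 ↔ ¬ x.tail.2 < y.tail.2 := by rw [ltT, not_not]
    have ltM' : z.tail.2 < x.head.2 ↔ ¬ x.head.2 < z.tail.2 := by rw [ltM, not_not]
    have ltB' : z.head.2 < y.head.2 ↔ ¬ y.head.2 < z.head.2 := by rw [ltB, not_not]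
    have kk : ∀ k ∈ D.arrows, k ≠ x → k ≠ y → k ≠ z →
        (Af x.tail k ↔ Af y.tail k) ∧ (Af z.tail k ↔ Af x.head k) ∧ (Af z.head k ↔ Af y.head k) ∧
        (Bf x.tail k ↔ Bf y.tail k) ∧ (Bf z.tail k ↔ Bf x.head k) ∧ (Bf z.head k ↔ Bf y.head k) := by
      intro k b0 b1 b2 b3
      have k1 := key k b0 b1 b2 b3 _ (tail_mem k)
      have k2 := key k b0 b1 b2 b3 _ (head_mem k)
      simp only [Af, Bf, k1, k2, and_self]
    have fx : ∀ k, Four x k → Four x' k := fun k hk => by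
      simp only [Four, hx', ← eT, ← eM] at hk ⊢; exact hk
    have fy : ∀ k, Four y k → Four y' k := fun k hk => by
      simp only [Four, hy', eT, ← eB] at hk ⊢; exact hk
    have fz : ∀ k, Four z k → Four z' k := fun k hk => by
      simp only [Four, hz', eM, eB] at hk ⊢; exact hk
    rcases cases4 e he with he' | he' | he' | ⟨a0, a1, a2, a3⟩ <;>
      rcases cases4 f hf with hf' | hf' | hf' | ⟨b0, b1, b2, b3⟩
    · subst he' hf'; exact absurd rfl h4.2.2.1
    · subst he' hf'; exact absurd eT h4.2.2.1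
    · subst he' hf'; exact absurd eM h4.2.2.2.2.1
    · subst he'
      obtain ⟨k1, k2, k3, -⟩ := kk f b0 b1 b2 b3
      have h4' := fx f h4
      rw [τx, τo f b1 b2 b3, ind_false (not_cr_left rfl rfl h4').1,
        ind_false (not_cr_left rfl rfl h4).1,
        ind_congr (cr_iff h4' (g := y') (Or.inl ⟨rfl, rfl⟩) (Or.inl rfl) eT),
        ind_congr (cr_iff h4 (g := y) (Or.inl ⟨rfl, rfl⟩) (Or.inl rfl) eT.symm),
        ind_congr (cr_iff h4' (g := z') (Or.inl ⟨rfl, rfl⟩) (Or.inr rfl) eM),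
        ind_congr (cr_iff h4 (g := z) (Or.inl ⟨rfl, rfl⟩) (Or.inr rfl) eM.symm),
        zero_add, zero_add]
      simp only [hx', hy', hz', k3]
      exact fin _ _ _ _ _ ltT ltM
    · subst he' hf'; exact absurd eT.symm h4.2.2.1
    · subst he' hf'; exact absurd rfl h4.2.2.1
    · subst he' hf'; exact absurd eB h4.2.2.2.2.2
    · subst he'
      obtain ⟨k1, k2, k3, -⟩ := kk f b0 b1 b2 b3
      have h4' := fy f h4
      rw [τy, τo f b1 b2 b3, ind_false (not_cr_left rfl rfl h4').1,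
        ind_false (not_cr_left rfl rfl h4).1,
        ind_congr (cr_iff h4' (g := x') (Or.inl ⟨rfl, rfl⟩) (Or.inl rfl) eT.symm),
        ind_congr (cr_iff h4 (g := x) (Or.inl ⟨rfl, rfl⟩) (Or.inl rfl) eT),
        ind_congr (cr_iff h4' (g := z') (Or.inr ⟨rfl, rfl⟩) (Or.inr rfl) eB),
        ind_congr (cr_iff h4 (g := z) (Or.inr ⟨rfl, rfl⟩) (Or.inr rfl) eB.symm),
        add_zero, add_zero]
      simp only [hx', hy', hz', k2]
      exact fin _ _ _ _ _ ltT' ltB
    · subst he' hf'; exact absurd eM.symm h4.2.2.2.1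
    · subst he' hf'; exact absurd eB.symm h4.2.2.2.2.2
    · subst he' hf'; exact absurd rfl h4.2.2.1
    · subst he'
      obtain ⟨k1, k2, k3, -⟩ := kk f b0 b1 b2 b3
      have h4' := fz f h4
      rw [τz, τo f b1 b2 b3, ind_false (not_cr_left rfl rfl h4').1,
        ind_false (not_cr_left rfl rfl h4).1,
        ind_congr (cr_iff h4' (g := x') (Or.inr ⟨rfl, rfl⟩) (Or.inl rfl) eM.symm),
        ind_congr (cr_iff h4 (g := x) (Or.inr ⟨rfl, rfl⟩) (Or.inl rfl) eM),
        ind_congr (cr_iff h4' (g := y') (Or.inr ⟨rfl, rfl⟩) (Or.inr rfl) eB.symm),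
        ind_congr (cr_iff h4 (g := y) (Or.inr ⟨rfl, rfl⟩) (Or.inr rfl) eB),
        add_zero, add_zero]
      simp only [hx', hy', hz', k1]
      exact fin _ _ _ _ _ ltM' ltB'
    · subst hf'
      obtain ⟨-, -, -, k1, k2, k3⟩ := kk e a0 a1 a2 a3
      have h4' := (fx e h4.symm).symm
      rw [τx, τo e a1 a2 a3, ind_false (not_cr_left rfl rfl h4'.symm).2,
        ind_false (not_cr_left rfl rfl h4.symm).2,
        ind_congr (cr_iff' h4' (g := y') (Or.inl ⟨rfl, rfl⟩) (Or.inl rfl) eT),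
        ind_congr (cr_iff' h4 (g := y) (Or.inl ⟨rfl, rfl⟩) (Or.inl rfl) eT.symm),
        ind_congr (cr_iff' h4' (g := z') (Or.inl ⟨rfl, rfl⟩) (Or.inr rfl) eM),
        ind_congr (cr_iff' h4 (g := z) (Or.inl ⟨rfl, rfl⟩) (Or.inr rfl) eM.symm),
        zero_add, zero_add]
      simp only [hx', hy', hz', k3]
      exact fin _ _ _ _ _ ltT' ltM'
    · subst hf'
      obtain ⟨-, -, -, k1, k2, k3⟩ := kk e a0 a1 a2 a3
      have h4' := (fy e h4.symm).symm
      rw [τy, τo e a1 a2 a3, ind_false (not_cr_left rfl rfl h4'.symm).2,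
        ind_false (not_cr_left rfl rfl h4.symm).2,
        ind_congr (cr_iff' h4' (g := x') (Or.inl ⟨rfl, rfl⟩) (Or.inl rfl) eT.symm),
        ind_congr (cr_iff' h4 (g := x) (Or.inl ⟨rfl, rfl⟩) (Or.inl rfl) eT),
        ind_congr (cr_iff' h4' (g := z') (Or.inr ⟨rfl, rfl⟩) (Or.inr rfl) eB),
        ind_congr (cr_iff' h4 (g := z) (Or.inr ⟨rfl, rfl⟩) (Or.inr rfl) eB.symm),
        add_zero, add_zero]
      simp only [hx', hy', hz', k2]
      exact fin _ _ _ _ _ ltT ltB'
    · subst hf'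
      obtain ⟨-, -, -, k1, k2, k3⟩ := kk e a0 a1 a2 a3
      have h4' := (fz e h4.symm).symm
      rw [τz, τo e a1 a2 a3, ind_false (not_cr_left rfl rfl h4'.symm).2,
        ind_false (not_cr_left rfl rfl h4.symm).2,
        ind_congr (cr_iff' h4' (g := x') (Or.inr ⟨rfl, rfl⟩) (Or.inl rfl) eM.symm),
        ind_congr (cr_iff' h4 (g := x) (Or.inr ⟨rfl, rfl⟩) (Or.inl rfl) eM),
        ind_congr (cr_iff' h4' (g := y') (Or.inr ⟨rfl, rfl⟩) (Or.inr rfl) eB.symm),
        ind_congr (cr_iff' h4 (g := y) (Or.inr ⟨rfl, rfl⟩) (Or.inr rfl) eB),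
        add_zero, add_zero]
      simp only [hx', hy', hz', k1]
      exact fin _ _ _ _ _ ltM ltB
    · have k1 := key e a0 a1 a2 a3 _ (tail_mem e)
      have k2 := key e a0 a1 a2 a3 _ (head_mem e)
      have k3 := key f b0 b1 b2 b3 _ (tail_mem f)
      have k4 := key f b0 b1 b2 b3 _ (head_mem f)
      rw [τo e a1 a2 a3, τo f b1 b2 b3]
      have e1 : Cr x' e f ↔ Cr x e f := by simp only [Cr, Bf, Af, hx', k1, k2, k3, k4]
      have e2 : Cr y' e f ↔ Cr y e f := by simp only [Cr, Bf, Af, hy', k1, k2, k3, k4]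
      have e3 : Cr z' e f ↔ Cr z e f := by simp only [Cr, Bf, Af, hz', k1, k2, k3, k4]
      rw [ind_congr e1, ind_congr e2, ind_congr e3]

lemma ginv_move {p q r s : Fin n} (h : Dist p q r s) {D D' : Gauss n} (hD : Move D D') :
    ginv p q r s D' = ginv p q r s D := by
  rcases hD with hD | hD | hD | hD
  exacts [ginv_reparam h hD, ginv_selfVirt h hD, ginv_reid2 h hD, ginv_reid3 h hD]

lemma ginv_eqv {p q r s : Fin n} (h : Dist p q r s) {D D' : Gauss n}
    (hD : Relation.EqvGen Move D D') : ginv p q r s D' = ginv p q r s D := by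
  induction hD with
  | rel _ _ h1 => exact ginv_move h h1
  | refl => rfl
  | symm _ _ _ ih => exact ih.symm
  | trans _ _ _ _ _ ih1 ih2 => exact ih2.trans ih1

lemma ginv_horizontal (p q r s : Fin n) {D : Gauss n} (hD : D.Horizontal) :
    ginv p q r s D = 0 := by
  unfold ginv inv
  refine Finset.sum_eq_zero fun e he => Finset.sum_eq_zero fun f hf => ?_
  have key : ∀ e ∈ D.finite.toFinset, ∀ f ∈ D.finite.toFinset, e.tail.2 ≤ f.tail.2 →
      al D.finite.toFinset e f = 0 := by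
    intro e he f hf hle
    refine Finset.sum_eq_zero fun g hg => ind_false ?_
    have h1 := hD e (by simpa using he)
    have h2 := hD f (by simpa using hf)
    have h3 := hD g (by simpa using hg)
    simp only [Cr, Bf, Af, Lt]
    grind
  unfold term
  rcases le_total e.tail.2 f.tail.2 with h | h
  · rw [key e he f hf h, zero_mul, mul_zero]
  · rw [key f hf e he h, mul_zero, mul_zero]

end Pool.Agent.H394Z.VSL
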